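import Mathlib

set_option autoImplicit false

/-!
# Exponential domination in trees of bounded maximum degree (MP_75fda7_co, Q1)

For every `Δ ≥ 6` there are arbitrarily large trees `T` of maximum degree at most `Δ` whose
exponential domination number is at most `(Δ n(T)) ^ (1 / log₂((Δ - 1) / 2))`, a power of `n(T)`
with exponent smaller than `1` (and tending to `0` as `Δ` grows). So there is no bound of the
form `c_Δ n(T) / log n(T)`.

The tree: a complete `b`-ary tree of depth `h`, `b = Δ - 1`, all of whose leaves belong to `S`,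
is hung below the root of a complete `b`-ary tree of depth `k`, which has no vertex in `S`, where
`2 ^ k ≤ (b / 2) ^ h`.
-/

namespace Pool.Agent.Results.MP_75fda7_co.PolynomiallySmall

open Finset

section defs

variable {V : Type}

/-- The path `p` from `u` to `v` has exactly one endvertex in `S` and no internal vertex in `S`. -/
def Admissible (G : SimpleGraph V) (S : Set V) {u v : V} (p : G.Walk u v) : Prop :=
  p.IsPath ∧ (({u, v} : Set V) ∩ S).ncard = 1 ∧ ∀ x ∈ p.support, x ≠ u → x ≠ v → x ∉ S

/-- `dist_(G,S)(u,v)`: the least length of a path from `u` to `v` with exactly one endvertex in `S`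
and no internal vertex in `S`; it is `∞` if there is no such path. -/
noncomputable def sdist (G : SimpleGraph V) (S : Set V) (u v : V) : ℕ∞ :=
  ⨅ p : {p : G.Walk u v // Admissible G S p}, (p.1.length : ℕ∞)

/-- `(1/2)^(d - 1)`, which is `0` for `d = ∞`. -/
noncomputable def contribution (d : ℕ∞) : ℝ :=
  if d = ⊤ then 0 else (1 / 2 : ℝ) ^ ((d.toNat : ℤ) - 1)

/-- `w_(G,S)(u) = ∑_{v ∈ S} (1/2)^(dist_(G,S)(u,v) - 1)`. -/
noncomputable def weight (G : SimpleGraph V) (S : Finset V) (u : V) : ℝ :=
  ∑ v ∈ S, contribution (sdist G S u v)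

/-- `S` is an exponential dominating set of `G`. -/
def IsExpDominating (G : SimpleGraph V) (S : Finset V) : Prop := ∀ u, 1 ≤ weight G S u

/-- The exponential domination number `γ_e(G)`. -/
noncomputable def gammaE (G : SimpleGraph V) : ℕ :=
  sInf {k | ∃ S : Finset V, S.card = k ∧ IsExpDominating G S}

end defs

/-- The statement of Q1: for every `Δ` there is `c > 0` such that every tree `T` of maximum degree
at most `Δ` with `n(T) ≥ 2` vertices satisfies `γ_e(T) ≥ c n(T) / log n(T)`. -/
def Question : Prop :=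
  ∀ Δ : ℕ, ∃ c : ℝ, 0 < c ∧ ∀ (V : Type) [Finite V] (T : SimpleGraph V), T.IsTree →
    (∀ v, (T.neighborSet v).ncard ≤ Δ) → 2 ≤ Nat.card V →
      c * (Nat.card V / Real.log (Nat.card V)) ≤ gammaE T

/-! ### Trees given by a parent function -/

section parent

variable {V : Type} (p : V → V)

/-- the graph in which every vertex is joined to its parent -/
def parentGraph : SimpleGraph V where
  Adj u v := u ≠ v ∧ (p u = v ∨ p v = u)
  symm := ⟨fun _ _ h => ⟨h.1.symm, h.2.symm⟩⟩
  loopless := ⟨fun _ h => h.1 rfl⟩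

variable {p}

theorem adj_parent {v : V} (h : p v ≠ v) : (parentGraph p).Adj v (p v) := ⟨h.symm, Or.inl rfl⟩

theorem isTree [Finite V] (d : V → ℕ) (r : V) (hr : p r = r)
    (hd : ∀ v, v ≠ r → d (p v) + 1 = d v) : (parentGraph p).IsTree := by
  classical
  have hne : ∀ v, v ≠ r → p v ≠ v := by
    intro v hv h
    have := hd v hv
    rw [h] at this
    omega
  have hreach : ∀ n : ℕ, ∀ v, d v = n → (parentGraph p).Reachable v r := by
    intro n
    induction n with
    | zero =>
      intro v hv
      by_cases h : v = r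
      · rw [h]
      · have := hd v h
        omega
    | succ n ih =>
      intro v hv
      by_cases h : v = r
      · rw [h]
      · have h1 := hd v h
        exact (adj_parent (hne v h)).reachable.trans (ih (p v) (by omega))
  have hconn : (parentGraph p).Connected := by
    rw [SimpleGraph.connected_iff_exists_forall_reachable]
    exact ⟨r, fun v => (hreach _ v rfl).symm⟩
  rw [SimpleGraph.isTree_iff_connected_and_card]
  refine ⟨hconn, le_antisymm ?_ hconn.card_vert_le_card_edgeSet_add_one⟩
  have h1 : (parentGraph p).edgeSet ⊆ (fun v => s(v, p v)) '' {v | v ≠ r} := by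
    intro e
    induction e with
    | _ u v =>
      intro he
      rw [SimpleGraph.mem_edgeSet] at he
      obtain ⟨huv, h | h⟩ := he
      · refine ⟨u, ?_, by simp [h]⟩
        rintro rfl
        exact huv (hr.symm.trans h)
      · refine ⟨v, ?_, by simp [h, Sym2.eq_swap]⟩
        rintro rfl
        exact huv (h.symm.trans hr)
  have h2 : ((parentGraph p).edgeSet).ncard ≤ ({v : V | v ≠ r}).ncard :=
    (Set.ncard_le_ncard h1 (Set.toFinite _)).trans (Set.ncard_image_le (Set.toFinite _))
  have h3 : ({v : V | v ≠ r}).ncard + 1 = Nat.card V := by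
    have h4 : ({v : V | v ≠ r}) = (Set.univ : Set V) \ {r} := by
      ext v
      simp
    rw [h4, Set.ncard_sdiff_singleton_add_one (Set.mem_univ r) (Set.toFinite _), Set.ncard_univ]
  have h5 : Nat.card (parentGraph p).edgeSet = ((parentGraph p).edgeSet).ncard := rfl
  omega

/-- climbing from a vertex -/
theorem climb (i : ℕ) : ∀ v : V, ∃ w : (parentGraph p).Walk v (p^[i] v), w.length ≤ i ∧
    ∀ x ∈ w.support, ∃ t, x = p^[t] v := by
  classical
  induction i with
  | zero =>
    intro v
    refine ⟨SimpleGraph.Walk.nil, le_rfl, ?_⟩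
    intro x hx
    refine ⟨0, ?_⟩
    simpa using hx
  | succ i ih =>
    intro v
    obtain ⟨w, hw1, hw2⟩ := ih (p v)
    by_cases h : p v = v
    · have h1 : p^[i + 1] v = p^[i] v := by
        rw [Function.iterate_succ_apply, h]
      rw [h1]
      obtain ⟨w', hw1', hw2'⟩ := ih v
      exact ⟨w', by omega, hw2'⟩
    · rw [Function.iterate_succ_apply]
      refine ⟨SimpleGraph.Walk.cons (adj_parent h) w, ?_, ?_⟩
      · rw [SimpleGraph.Walk.length_cons]
        omega
      · intro x hx
        rw [SimpleGraph.Walk.support_cons, List.mem_cons] at hx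
        rcases hx with rfl | hx
        · exact ⟨0, rfl⟩
        · obtain ⟨t, rfl⟩ := hw2 x hx
          exact ⟨t + 1, rfl⟩

/-- two vertices with the same ancestor -/
theorem sdist_le [DecidableEq V] (S : Finset V) (hS : ∀ x, p x ∉ S) {u v : V} (hu : u ∉ S) (hv : v ∈ S)
    (i j : ℕ) (hij : p^[i] u = p^[j] v) : sdist (parentGraph p) S u v ≤ ((i + j : ℕ) : ℕ∞) := by
  obtain ⟨w1, hw1, hs1⟩ := climb (p := p) i u
  obtain ⟨w2, hw2, hs2⟩ := climb (p := p) j v
  obtain ⟨w, hw, hs⟩ : ∃ w : (parentGraph p).Walk u v, w.length ≤ i + j ∧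
      ∀ x ∈ w.support, (∃ t, x = p^[t] u) ∨ ∃ t, x = p^[t] v := by
    refine ⟨w1.append ((w2.copy rfl hij.symm).reverse), ?_, ?_⟩
    · rw [SimpleGraph.Walk.length_append, SimpleGraph.Walk.length_reverse,
        SimpleGraph.Walk.length_copy]
      omega
    · intro x hx
      rw [SimpleGraph.Walk.mem_support_append_iff, SimpleGraph.Walk.support_reverse,
        List.mem_reverse, SimpleGraph.Walk.support_copy] at hx
      rcases hx with hx | hx
      · exact Or.inl (hs1 x hx)
      · exact Or.inr (hs2 x hx)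
  have hanc : ∀ (z : V) (t : ℕ), p^[t] z ≠ z → p^[t] z ∉ S := by
    intro z t hz
    rcases t with _ | t
    · exact absurd rfl hz
    · rw [Function.iterate_succ_apply']
      exact hS _
  have hadm : Admissible (parentGraph p) S w.bypass := by
    refine ⟨w.bypass_isPath, ?_, ?_⟩
    · have : ({u, v} : Set V) ∩ S = {v} := by
        ext x
        simp only [Set.mem_inter_iff, Set.mem_insert_iff, Set.mem_singleton_iff, mem_coe]
        constructor
        · rintro ⟨rfl | rfl, h⟩
          · exact absurd h hu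
          · rfl
        · rintro rfl
          exact ⟨Or.inr rfl, hv⟩
      rw [this, Set.ncard_singleton]
    · intro x hx hxu hxv
      rcases hs x (w.support_bypass_subset_support hx) with ⟨t, rfl⟩ | ⟨t, rfl⟩
      · exact hanc u t hxu
      · exact hanc v t hxv
  refine (iInf_le _ ⟨w.bypass, hadm⟩).trans ?_
  have := w.length_bypass_le_length
  exact_mod_cast this.trans hw

theorem sdist_self (S : Finset V) {u : V} (hu : u ∈ S) :
    sdist (parentGraph p) S u u ≤ ((0 : ℕ) : ℕ∞) := by
  have hadm : Admissible (parentGraph p) S (SimpleGraph.Walk.nil : (parentGraph p).Walk u u) := by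
    refine ⟨SimpleGraph.Walk.IsPath.nil, ?_, ?_⟩
    · have : ({u, u} : Set V) ∩ S = {u} := by
        ext x
        simp only [Set.mem_inter_iff, Set.mem_insert_iff, Set.mem_singleton_iff, mem_coe, or_self]
        constructor
        · rintro ⟨rfl, _⟩
          rfl
        · rintro rfl
          exact ⟨rfl, hu⟩
      rw [this, Set.ncard_singleton]
    · intro x hx hxu
      simp at hx
      exact absurd hx hxu
  exact (iInf_le _ ⟨_, hadm⟩).trans (by simp)

end parent

theorem contribution_nonneg (d : ℕ∞) : 0 ≤ contribution d := by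
  unfold contribution
  split_ifs
  · exact le_rfl
  · positivity

theorem le_contribution {d : ℕ∞} {m : ℕ} (h : d ≤ (m : ℕ∞)) :
    (1 / 2 : ℝ) ^ ((m : ℤ) - 1) ≤ contribution d := by
  unfold contribution
  have hd : d ≠ ⊤ := ne_top_of_le_ne_top (ENat.natCast_ne_top m) h
  rw [if_neg hd]
  have h1 : d.toNat ≤ m := by
    rw [← ENat.natCast_toNat hd] at h
    exact_mod_cast h
  apply zpow_le_zpow_right_of_le_one₀ (by norm_num) (by norm_num)
  omega

theorem le_weight {V : Type} (G : SimpleGraph V) (S S' : Finset V) (u : V) (hS : S' ⊆ S) (m : ℕ)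
    (h : ∀ v ∈ S', sdist G S u v ≤ (m : ℕ∞)) :
    (S'.card : ℝ) * (1 / 2 : ℝ) ^ ((m : ℤ) - 1) ≤ weight G S u := by
  unfold weight
  calc (S'.card : ℝ) * (1 / 2 : ℝ) ^ ((m : ℤ) - 1) = ∑ v ∈ S', (1 / 2 : ℝ) ^ ((m : ℤ) - 1) := by
        rw [sum_const, nsmul_eq_mul]
    _ ≤ ∑ v ∈ S', contribution (sdist G S u v) := sum_le_sum fun v hv => le_contribution (h v hv)
    _ ≤ ∑ v ∈ S, contribution (sdist G S u v) :=
        sum_le_sum_of_subset_of_nonneg hS fun v _ _ => contribution_nonneg _

/-! ### The trees -/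

section trees

variable (b h k : ℕ)

/-- the triples `(s, i, m)`: the vertex number `m` of level `i` of the complete `b`-ary tree of depth
`h` (if `s` is true), of depth `k` (if `s` is false) -/
def mem (x : Bool × ℕ × ℕ) : Prop := x.2.1 ≤ (if x.1 then h else k) ∧ x.2.2 < b ^ x.2.1

/-- the vertices -/
abbrev Vert : Type := {x : Bool × ℕ × ℕ // mem b h k x}

instance : Finite (Vert b h k) := by
  have h1 : {x : Bool × ℕ × ℕ | mem b h k x} ⊆
      ((univ ×ˢ (range (h + k + 1) ×ˢ (range (h + k + 1)).biUnion fun i => range (b ^ i)) :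
        Finset (Bool × ℕ × ℕ)) : Set (Bool × ℕ × ℕ)) := by
    rintro ⟨s, i, m⟩ ⟨h1, h2⟩
    simp only at h1 h2
    have h3 : i < h + k + 1 := by
      split_ifs at h1 <;> omega
    simp only [coe_product, Set.mem_prod, mem_coe, mem_univ, true_and, mem_range, mem_biUnion]
    exact ⟨h3, i, h3, h2⟩
  exact ((finite_toSet _).subset h1).to_subtype

/-- the parent of a vertex, on triples -/
def par (x : Bool × ℕ × ℕ) : Bool × ℕ × ℕ :=
  match x with
  | (s, i + 1, m) => (s, i, m / b)
  | (_, 0, _) => (false, 0, 0)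

variable {b h k}

theorem mem_par {x : Bool × ℕ × ℕ} (hx : mem b h k x) : mem b h k (par b x) := by
  obtain ⟨s, i, m⟩ := x
  obtain ⟨h1, h2⟩ := hx
  simp only at h1 h2
  rcases i with _ | i
  · exact ⟨Nat.zero_le _, by simp [par]⟩
  · refine ⟨?_, ?_⟩
    · show i ≤ if s then h else k
      exact le_trans (Nat.le_succ i) h1
    · show m / b < b ^ i
      rw [pow_succ] at h2
      exact Nat.div_lt_of_lt_mul (by rwa [mul_comm])

/-- the parent of a vertex -/
def parent (x : Vert b h k) : Vert b h k := ⟨par b x.1, mem_par x.2⟩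

/-- the depth of a vertex -/
def depth (x : Vert b h k) : ℕ := x.1.2.1 + if x.1.1 then 1 else 0

/-- the root -/
def root : Vert b h k := ⟨(false, 0, 0), Nat.zero_le _, by simp⟩

theorem parent_root : parent (root : Vert b h k) = root := rfl

theorem depth_parent (v : Vert b h k) (hv : v ≠ root) : depth (parent v) + 1 = depth v := by
  obtain ⟨⟨s, i, m⟩, h1, h2⟩ := v
  rcases i with _ | i
  · have hm : m = 0 := by simpa using h2
    subst hm
    cases s
    · exact absurd rfl hv
    · rfl
  · show i + (if s then 1 else 0) + 1 = i + 1 + (if s then 1 else 0)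
    omega

theorem parent_isTree : (parentGraph (parent (b := b) (h := h) (k := k))).IsTree :=
  isTree depth root parent_root depth_parent

theorem par_iterate (s : Bool) (m j : ℕ) : ∀ i, (par b)^[j] (s, i + j, m) = (s, i, m / b ^ j) := by
  induction j generalizing m with
  | zero => intro i; simp
  | succ j ih =>
    intro i
    rw [Function.iterate_succ_apply]
    have : par b (s, i + (j + 1), m) = (s, i + j, m / b) := rfl
    rw [this, ih, Nat.div_div_eq_div_mul, pow_succ, mul_comm b]

theorem parent_iterate_val (j : ℕ) (x : Vert b h k) : (parent^[j] x).1 = (par b)^[j] x.1 := by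
  induction j generalizing x with
  | zero => rfl
  | succ j ih =>
    rw [Function.iterate_succ_apply, Function.iterate_succ_apply, ih]
    rfl

theorem degree_le (v : Vert b h k) :
    ((parentGraph (parent (b := b) (h := h) (k := k))).neighborSet v).ncard ≤ b + 1 := by
  classical
  rw [← Set.ncard_image_of_injective _ Subtype.val_injective]
  obtain ⟨c, hc⟩ : ∃ c : Bool × ℕ × ℕ, ∀ x : Vert b h k,
      (parentGraph parent).Adj v x → x.1 = c ∨ ∃ t < b, x.1 = (v.1.1, v.1.2.1 + 1, b * v.1.2.2 + t) := by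
    have key : ∀ x : Vert b h k, parent x = v → x.1 = (true, 0, 0) ∧ v = root ∨ x = v ∨
        ∃ t < b, x.1 = (v.1.1, v.1.2.1 + 1, b * v.1.2.2 + t) := by
      rintro ⟨⟨s, i, m⟩, h1, h2⟩ rfl
      rcases i with _ | i
      · have hm : m = 0 := by simpa using h2
        subst hm
        cases s
        · right; left; rfl
        · left; exact ⟨rfl, rfl⟩
      · right; right
        have hb : 0 < b := by
          rcases Nat.eq_zero_or_pos b with rfl | hb
          · simp at h2
          · exact hb
        refine ⟨m % b, Nat.mod_lt _ hb, ?_⟩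
        show (s, i + 1, m) = (s, i + 1, b * (m / b) + m % b)
        rw [Nat.div_add_mod]
    by_cases hv : v = root
    · refine ⟨(true, 0, 0), ?_⟩
      rintro x ⟨hne, h | h⟩
      · subst hv
        exact absurd (parent_root.symm.trans h) hne
      · rcases key x h with h | h | h
        · exact Or.inl h.1
        · exact absurd h.symm hne
        · exact Or.inr h
    · refine ⟨(parent v).1, ?_⟩
      rintro x ⟨hne, h | h⟩
      · exact Or.inl (by rw [h])
      · rcases key x h with h | h | h
        · exact absurd h.2 hv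
        · exact absurd h.symm hne
        · exact Or.inr h
  have h1 : Subtype.val '' ((parentGraph (parent (b := b) (h := h) (k := k))).neighborSet v) ⊆
      ((insert c ((range b).image fun t => (v.1.1, v.1.2.1 + 1, b * v.1.2.2 + t)) :
        Finset (Bool × ℕ × ℕ)) : Set (Bool × ℕ × ℕ)) := by
    rintro _ ⟨x, hx, rfl⟩
    rw [mem_coe, mem_insert, mem_image]
    rcases hc x hx with h | ⟨t, ht, h⟩
    · exact Or.inl h
    · exact Or.inr ⟨t, mem_range.2 ht, h.symm⟩
  refine (Set.ncard_le_ncard h1 (finite_toSet _)).trans ?_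
  rw [Set.ncard_coe_finset]
  refine (card_insert_le _ _).trans ?_
  have := card_image_le (s := range b) (f := fun t => (v.1.1, v.1.2.1 + 1, b * v.1.2.2 + t))
  rw [card_range] at this
  omega

/-! ### The dominating set -/

/-- the leaves below the additional child of the root -/
def leaf (t : Fin (b ^ h)) : Vert b h k := ⟨(true, h, t), le_of_eq rfl, t.2⟩

theorem leaf_injective : Function.Injective (leaf (b := b) (h := h) (k := k)) := by
  intro s t hst
  have := congrArg (fun x : Vert b h k => x.1.2.2) hst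
  exact Fin.ext this

/-- the exponential dominating set -/
def domSet (b h k : ℕ) : Finset (Vert b h k) := univ.map ⟨leaf, leaf_injective⟩

theorem card_domSet : (domSet b h k).card = b ^ h := by simp [domSet]

theorem mem_domSet {x : Vert b h k} : x ∈ domSet b h k ↔ x.1.1 = true ∧ x.1.2.1 = h := by
  rw [domSet, mem_map]
  constructor
  · rintro ⟨t, -, rfl⟩
    exact ⟨rfl, rfl⟩
  · rintro ⟨h1, h2⟩
    obtain ⟨⟨s, i, m⟩, h3, h4⟩ := x
    simp only at h1 h2 h4
    subst h1 h2
    exact ⟨⟨m, h4⟩, mem_univ _, rfl⟩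

theorem parent_notMem (x : Vert b h k) : parent x ∉ domSet b h k := by
  rw [mem_domSet]
  obtain ⟨⟨s, i, m⟩, h1, h2⟩ := x
  rcases i with _ | i
  · rintro ⟨h3, -⟩
    exact Bool.false_ne_true h3
  · rintro ⟨h3, h4⟩
    have h5 : s = true := h3
    have h6 : i = h := h4
    simp only [h5, if_true] at h1
    omega

theorem iterate_true {i m j : ℕ} (hx : mem b h k (true, i, m)) (hij : i + j = h)
    (t : Fin (b ^ h)) (ht : (t : ℕ) / b ^ j = m) :
    parent^[0] (⟨(true, i, m), hx⟩ : Vert b h k) = parent^[j] (leaf t) := by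
  apply Subtype.ext
  rw [parent_iterate_val, parent_iterate_val]
  have h2 : (leaf t : Vert b h k).1 = (true, i + j, (t : ℕ)) := by
    rw [hij]
    rfl
  rw [h2, par_iterate, ht]
  rfl

theorem iterate_root_false {i m : ℕ} (hx : mem b h k (false, i, m)) :
    parent^[i] (⟨(false, i, m), hx⟩ : Vert b h k) = root := by
  apply Subtype.ext
  rw [parent_iterate_val]
  have h2 : (false, i, m) = (false, 0 + i, m) := by rw [Nat.zero_add]
  have h3 : m < b ^ i := hx.2
  show (par b)^[i] (false, i, m) = (false, 0, 0)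
  rw [h2, par_iterate, Nat.div_eq_of_lt h3]

theorem iterate_root_leaf (t : Fin (b ^ h)) :
    parent^[h + 1] (leaf t : Vert b h k) = root := by
  rw [Function.iterate_succ_apply']
  apply Subtype.ext
  show par b (parent^[h] (leaf t : Vert b h k)).1 = (false, 0, 0)
  rw [parent_iterate_val]
  have h2 : (leaf t : Vert b h k).1 = (true, 0 + h, (t : ℕ)) := by
    rw [Nat.zero_add]
    rfl
  rw [h2, par_iterate]
  rfl

theorem domSet_dominating (hb : 2 ≤ b) (hk : 2 ^ (k + h) ≤ b ^ h) :
    IsExpDominating (parentGraph (parent (b := b) (h := h) (k := k))) (domSet b h k) := by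
  classical
  intro u
  by_cases hu : u ∈ domSet b h k
  · have h1 := le_weight (parentGraph parent) (domSet b h k) {u} u (singleton_subset_iff.2 hu) 0
      (by
        intro v hv
        rw [mem_singleton] at hv
        subst hv
        exact sdist_self _ hu)
    rw [card_singleton] at h1
    norm_num at h1
    linarith
  · obtain ⟨⟨s, i, m⟩, hx⟩ := u
    cases s
    · -- a vertex of the part without elements of `S`
      have h1 := le_weight (parentGraph parent) (domSet b h k) (domSet b h k)
        ⟨(false, i, m), hx⟩ Subset.rfl (i + (h + 1))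
        (by
          intro v hv
          have hv' := hv
          rw [domSet, mem_map] at hv'
          obtain ⟨t, -, rfl⟩ := hv'
          exact sdist_le _ parent_notMem hu hv i (h + 1)
            ((iterate_root_false hx).trans (iterate_root_leaf t).symm))
      refine le_trans ?_ h1
      rw [card_domSet]
      have h2 : i ≤ k := by simpa using hx.1
      have h3 : ((i + (h + 1) : ℕ) : ℤ) - 1 = ((i + h : ℕ) : ℤ) := by push_cast; ring
      rw [h3, zpow_natCast, one_div, inv_pow, ← div_eq_mul_inv, le_div_iff₀ (by positivity), one_mul]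
      have h4 : 2 ^ (i + h) ≤ b ^ h := le_trans (Nat.pow_le_pow_right (by norm_num) (by omega)) hk
      exact_mod_cast h4
    · -- an inner vertex of the other part
      have hih : i ≤ h := by simpa using hx.1
      obtain ⟨j, hj⟩ : ∃ j, j = h - i := ⟨_, rfl⟩
      have hm : m < b ^ i := hx.2
      have hlt : ∀ t : Fin (b ^ j), m * b ^ j + t < b ^ h := by
        intro t
        have h2 : b ^ h = b ^ i * b ^ j := by
          rw [← pow_add]
          congr 1
          omega
        rw [h2]
        calc m * b ^ j + t < m * b ^ j + b ^ j := by have := t.2; omega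
          _ = (m + 1) * b ^ j := by ring
          _ ≤ b ^ i * b ^ j := Nat.mul_le_mul_right _ hm
      have hinj : Function.Injective
          (fun t : Fin (b ^ j) => (leaf ⟨m * b ^ j + t, hlt t⟩ : Vert b h k)) := by
        intro s t hst
        have h2 := congrArg Fin.val (leaf_injective hst)
        simp only at h2
        exact Fin.ext (by omega)
      have h1 := le_weight (parentGraph parent) (domSet b h k)
        ((univ : Finset (Fin (b ^ j))).map ⟨_, hinj⟩) ⟨(true, i, m), hx⟩
        (by
          intro x hx'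
          rw [mem_map] at hx'
          obtain ⟨t, -, rfl⟩ := hx'
          exact mem_domSet.2 ⟨rfl, rfl⟩) (0 + j)
        (by
          intro v hv
          rw [mem_map] at hv
          obtain ⟨t, -, rfl⟩ := hv
          refine sdist_le _ parent_notMem hu (mem_domSet.2 ⟨rfl, rfl⟩) 0 j ?_
          apply iterate_true hx (by omega)
          have hpos : 0 < b ^ j := by positivity
          show (m * b ^ j + t) / b ^ j = m
          rw [mul_comm, Nat.mul_add_div hpos, Nat.div_eq_of_lt t.2, add_zero])
      refine le_trans ?_ h1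
      rw [card_map, card_univ, Fintype.card_fin, Nat.zero_add]
      have h5 : (1 / 2 : ℝ) ^ ((j : ℤ) - 1) = 2 * (1 / 2 ^ j) := by
        rw [zpow_sub₀ (by norm_num), zpow_natCast, zpow_one]
        rw [one_div, one_div, inv_pow]
        field_simp
      rw [h5]
      have h6 : (2 : ℝ) ^ j ≤ ((b ^ j : ℕ) : ℝ) := by
        exact_mod_cast Nat.pow_le_pow_left hb j
      have h7 : (0 : ℝ) < 2 ^ j := by positivity
      rw [mul_one_div, mul_div_assoc', le_div_iff₀ h7]
      linarith

theorem gammaE_le (hb : 2 ≤ b) (hk : 2 ^ (k + h) ≤ b ^ h) :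
    gammaE (parentGraph (parent (b := b) (h := h) (k := k))) ≤ b ^ h :=
  Nat.sInf_le ⟨domSet b h k, card_domSet, domSet_dominating hb hk⟩

theorem pow_le_card : b ^ k ≤ Nat.card (Vert b h k) := by
  have h1 : Function.Injective
      (fun t : Fin (b ^ k) => (⟨(false, k, t), by simp, t.2⟩ : Vert b h k)) := by
    intro s t hst
    have := congrArg (fun x : Vert b h k => x.1.2.2) hst
    exact Fin.ext this
  have := Nat.card_le_card_of_injective _ h1
  simpa using this

end trees

theorem exists_tree (Δ : ℕ) (hΔ : 6 ≤ Δ) (N : ℕ) :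
    ∃ (V : Type) (_ : Finite V) (T : SimpleGraph V), T.IsTree ∧
      (∀ v, (T.neighborSet v).ncard ≤ Δ) ∧ N ≤ Nat.card V ∧
      (gammaE T : ℝ) ≤ (((Δ : ℝ) - 1) * Nat.card V) ^ (1 / Real.logb 2 (((Δ : ℝ) - 1) / 2)) := by
  obtain ⟨b, rfl⟩ : ∃ b, Δ = b + 1 := ⟨Δ - 1, by omega⟩
  have hb : 5 ≤ b := by omega
  obtain ⟨h, hh⟩ : ∃ h, h = N + 1 := ⟨_, rfl⟩
  obtain ⟨k, hk⟩ : ∃ k, k = Nat.log 2 (b ^ h) - h := ⟨_, rfl⟩
  have hlog : h ≤ Nat.log 2 (b ^ h) := by
    apply Nat.le_log_of_pow_le (by norm_num)
    exact Nat.pow_le_pow_left (by omega) h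
  have hkh : k + h = Nat.log 2 (b ^ h) := by omega
  have hpos : b ^ h ≠ 0 := by positivity
  have h1 : 2 ^ (k + h) ≤ b ^ h := by
    rw [hkh]
    exact Nat.pow_log_le_self 2 hpos
  have h2 : b ^ h < 2 ^ (k + h + 1) := by
    rw [hkh]
    exact Nat.lt_pow_succ_log_self (by norm_num) _
  have hcard := pow_le_card (b := b) (h := h) (k := k)
  have hbR : (5 : ℝ) ≤ b := by exact_mod_cast hb
  have hb0 : (0 : ℝ) < b := by linarith
  have hb2 : (1 : ℝ) < (b : ℝ) / 2 := by linarith
  obtain ⟨β, hβ⟩ : ∃ β, β = Real.logb 2 b := ⟨_, rfl⟩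
  obtain ⟨l, hl⟩ : ∃ l, l = Real.logb 2 ((b : ℝ) / 2) := ⟨_, rfl⟩
  have hl1 : 1 < l := by
    rw [hl, Real.lt_logb_iff_rpow_lt (by norm_num) (by linarith)]
    rw [Real.rpow_one]
    linarith
  have hbβ : (b : ℝ) = 2 ^ β := by rw [hβ, Real.rpow_logb (by norm_num) (by norm_num) hb0]
  have hbl : (b : ℝ) / 2 = 2 ^ l := by rw [hl, Real.rpow_logb (by norm_num) (by norm_num) (by linarith)]
  have hβ0 : 0 < β := by
    rw [hβ]
    exact Real.logb_pos (by norm_num) (by linarith)
  -- `h l < k + 1`
  have h3 : (h : ℝ) * l < k + 1 := by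
    have h4 : ((b : ℝ) / 2) ^ h < 2 ^ (k + 1) := by
      rw [div_pow, div_lt_iff₀ (by positivity), ← pow_add]
      have h5 : (b : ℝ) ^ h < 2 ^ (k + h + 1) := by exact_mod_cast h2
      rw [show k + 1 + h = k + h + 1 by omega]
      exact h5
    rw [hbl, ← Real.rpow_natCast, ← Real.rpow_natCast, ← Real.rpow_mul (by norm_num),
      Real.rpow_lt_rpow_left_iff (by norm_num)] at h4
    push_cast at h4
    linarith
  have hkh' : h ≤ k := by
    have h5 : (h : ℝ) < k + 1 := by nlinarith
    have h6 : h < k + 1 := by exact_mod_cast h5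
    omega
  refine ⟨Vert b h k, inferInstance, parentGraph parent, parent_isTree, degree_le, ?_, ?_⟩
  · have h5 : k < b ^ k := Nat.lt_pow_self (by omega)
    omega
  · have h5 : (gammaE (parentGraph (parent (b := b) (h := h) (k := k))) : ℝ) ≤ (b : ℝ) ^ h := by
      exact_mod_cast gammaE_le (by omega) h1
    refine h5.trans ?_
    have e1 : (((b + 1 : ℕ) : ℝ) - 1) = b := by push_cast; ring
    rw [e1, ← hl]
    have h6 : (b : ℝ) ^ (k + 1) ≤ b * (Nat.card (Vert b h k) : ℝ) := by
      rw [pow_succ, mul_comm]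
      apply mul_le_mul_of_nonneg_left _ hb0.le
      exact_mod_cast hcard
    have h7 : (b : ℝ) ^ h ≤ ((b : ℝ) ^ (k + 1)) ^ (1 / l) := by
      have e2 : (b : ℝ) ^ h = 2 ^ (β * h) := by
        rw [← Real.rpow_natCast, hbβ, ← Real.rpow_mul (by norm_num)]
      have e3 : ((b : ℝ) ^ (k + 1)) ^ (1 / l) = 2 ^ (β * (k + 1) / l) := by
        rw [← Real.rpow_natCast, hbβ, ← Real.rpow_mul (by positivity), ← Real.rpow_mul (by norm_num)]
        congr 1
        push_cast
        ring
      rw [e2, e3]
      apply Real.rpow_le_rpow_of_exponent_le (by norm_num)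
      rw [le_div_iff₀ (by linarith)]
      nlinarith
    refine h7.trans ?_
    apply Real.rpow_le_rpow (by positivity) h6
    apply div_nonneg (by norm_num)
    linarith

theorem not_question : ¬ Question := by
  intro hQ
  obtain ⟨c, hc, hT⟩ := hQ 6
  obtain ⟨θ, hθ⟩ : ∃ θ, θ = 1 / Real.logb 2 ((((6 : ℕ) : ℝ) - 1) / 2) := ⟨_, rfl⟩
  have hl : 1 < Real.logb 2 ((((6 : ℕ) : ℝ) - 1) / 2) := by
    rw [Real.lt_logb_iff_rpow_lt (by norm_num) (by norm_num), Real.rpow_one]
    norm_num
  have hθ0 : 0 < θ := by rw [hθ]; positivity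
  have hθ1 : θ < 1 := by
    rw [hθ, div_lt_one (by linarith)]
    exact hl
  have h5 : (0 : ℝ) < 5 ^ θ := by positivity
  have ho := (isLittleO_log_rpow_atTop (by linarith : 0 < 1 - θ)).def
    (c := c / (2 * 5 ^ θ)) (by positivity)
  rw [Filter.eventually_atTop] at ho
  obtain ⟨x₀, hx₀⟩ := ho
  obtain ⟨N, hN⟩ := exists_nat_ge (max x₀ 2)
  obtain ⟨V, hV, T, h1, h2, h3, h4⟩ := exists_tree 6 le_rfl N
  have hn : (N : ℝ) ≤ Nat.card V := by exact_mod_cast h3
  have hn2 : (2 : ℝ) ≤ Nat.card V := (le_max_right _ _).trans (hN.trans hn)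
  have h6 := hT V T h1 h2 (by exact_mod_cast hn2)
  obtain ⟨n, hnn⟩ : ∃ n : ℝ, n = Nat.card V := ⟨_, rfl⟩
  rw [← hnn] at h4 h6 hn hn2
  rw [← hθ] at h4
  have h7 := hx₀ n ((le_max_left _ _).trans (hN.trans hn))
  have hlogpos : 0 < Real.log n := Real.log_pos (by linarith)
  rw [Real.norm_of_nonneg hlogpos.le, Real.norm_of_nonneg (by positivity)] at h7
  have h8 : c * (n / Real.log n) ≤ (5 * n) ^ θ := by
    refine h6.trans (h4.trans (le_of_eq ?_))
    norm_num
  rw [Real.mul_rpow (by norm_num) (by linarith), mul_div_assoc', div_le_iff₀ hlogpos] at h8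
  have h9 : (5 : ℝ) ^ θ * n ^ θ * Real.log n ≤ 5 ^ θ * n ^ θ * (c / (2 * 5 ^ θ) * n ^ (1 - θ)) :=
    mul_le_mul_of_nonneg_left h7 (by positivity)
  have h10 : (5 : ℝ) ^ θ * n ^ θ * (c / (2 * 5 ^ θ) * n ^ (1 - θ)) = c / 2 * n := by
    have h11 : n ^ θ * n ^ (1 - θ) = n := by
      rw [← Real.rpow_add (by linarith)]
      norm_num
    calc (5 : ℝ) ^ θ * n ^ θ * (c / (2 * 5 ^ θ) * n ^ (1 - θ))
        = c / 2 * (n ^ θ * n ^ (1 - θ)) := by field_simp
      _ = c / 2 * n := by rw [h11]
  have h12 : 0 < c * n := by positivity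
  linarith

/-- **Q1 is false**, for every `Δ ≥ 6`: there are arbitrarily large trees `T` of maximum degree at
most `Δ` with `γ_e(T) ≤ ((Δ - 1) n(T)) ^ (1 / log₂ ((Δ - 1) / 2))`, where the exponent is smaller
than `1` for `Δ ≥ 6` and tends to `0` as `Δ → ∞`. -/
theorem result : ¬ Question ∧ ∀ Δ : ℕ, 6 ≤ Δ → ∀ N : ℕ,
    ∃ (V : Type) (_ : Finite V) (T : SimpleGraph V), T.IsTree ∧
      (∀ v, (T.neighborSet v).ncard ≤ Δ) ∧ N ≤ Nat.card V ∧
      (gammaE T : ℝ) ≤ (((Δ : ℝ) - 1) * Nat.card V) ^ (1 / Real.logb 2 (((Δ : ℝ) - 1) / 2)) :=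
  ⟨not_question, exists_tree⟩

end Pool.Agent.Results.MP_75fda7_co.PolynomiallySmall
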